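import Pool.Agent.ZCQS.Cubic

/-!
# The class number and the units of the cubic field of `X³ + X² - 2 X - 1`
-/

set_option autoImplicit false

noncomputable section

namespace Pool.Agent.ZCQS

open Polynomial IntermediateField NumberField NumberField.InfinitePlace
open scoped Classical

theorem places : nrRealPlaces K7 + 2 * nrComplexPlaces K7 = 3 := by
  rw [card_add_two_mul_card_eq_rank, finrank_K7]

theorem pid7 : IsPrincipalIdealRing (𝓞 K7) := by
  apply RingOfIntegers.isPrincipalIdealRing_of_abs_discr_lt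
  rw [finrank_K7]
  have h1 : ((|discr K7| : ℤ) : ℝ) ≤ 49 := by exact_mod_cast abs_discr_le
  refine lt_of_le_of_lt h1 ?_
  have h2 : nrComplexPlaces K7 = 0 ∨ nrComplexPlaces K7 = 1 := by
    have := places
    omega
  have h3 := Real.pi_gt_d2
  have h4 : (Nat.factorial 3 : ℝ) = 6 := by norm_num [Nat.factorial]
  rcases h2 with h2 | h2
  · rw [h2, h4]
    norm_num
  · rw [h2, h4, pow_one]
    push_cast
    nlinarith

theorem rank7 : NumberField.Units.rank K7 ≤ 2 := by
  have := places
  unfold NumberField.Units.rank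
  rw [card_eq_nrRealPlaces_add_nrComplexPlaces]
  omega

/-- the real embedding -/
def i7 : K7 →+* ℝ := (K7.val : K7 →ₐ[ℚ] ℝ).toRingHom

theorem i7_t7 : i7 t7 = th := coe_t7

theorem i7_s7_t7 : i7 (s7 t7) = th ^ 2 - 2 := by
  rw [s7_t7, map_sub, map_pow, i7_t7, map_ofNat]

theorem i7_s7_s7_t7 : i7 (s7 (s7 t7)) = (th ^ 2 - 2) ^ 2 - 2 := by
  rw [s7_s7_t7, map_sub, map_pow, map_sub, map_pow, i7_t7, map_ofNat]

theorem bd2 : -(3 / 5) < th ^ 2 - 2 ∧ th ^ 2 - 2 < -(3 / 10) := by
  have h1 := th_gt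
  have h2 := th_lt
  constructor <;> nlinarith

theorem bd3 : (th ^ 2 - 2) ^ 2 - 2 < -(3 / 2) := by
  have h := bd2
  nlinarith [h.1, h.2]

/-- the unit `t` -/
def uT : (𝓞 K7)ˣ where
  val := T7
  inv := T7 ^ 2 + T7 - 2
  val_inv := by linear_combination T7_eq
  inv_val := by linear_combination T7_eq

/-- the unit `1 + t` -/
def uS : (𝓞 K7)ˣ where
  val := 1 + T7
  inv := 2 - T7 ^ 2
  val_inv := by linear_combination -T7_eq
  inv_val := by linear_combination -T7_eq

/-- the class modulo squares of a unit -/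
theorem exists_rep : ∃ ρ : (𝓞 K7)ˣ → Bool × (Fin (NumberField.Units.rank K7) → Bool),
    ∀ u v, ρ u = ρ v → IsSquare (u * v) := by
  have hodd : Odd (Module.finrank ℚ K7) := by
    rw [finrank_K7]
    decide
  choose c hc _ using NumberField.Units.exist_unique_eq_mul_prod K7
  refine ⟨fun u => (decide ((c u).1 = 1), fun i => decide (Even ((c u).2 i))), fun u v h => ?_⟩
  obtain ⟨h1, h2⟩ := Prod.mk.injEq .. ▸ h
  have h3 : ((c u).1 : (𝓞 K7)ˣ) * ((c v).1 : (𝓞 K7)ˣ) = 1 := by
    have h4 : (c u).1 = 1 ↔ (c v).1 = 1 := by simpa using h1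
    by_cases h5 : (c u).1 = 1
    · rw [h5, h4.1 h5]
      simp
    · have h6 : (c v).1 ≠ 1 := fun h => h5 (h4.2 h)
      have h7 := (NumberField.Units.torsion_eq_one_or_neg_one_of_odd_finrank hodd
        (c u).1).resolve_left fun h => h5 (Subtype.ext h)
      have h8 := (NumberField.Units.torsion_eq_one_or_neg_one_of_odd_finrank hodd
        (c v).1).resolve_left fun h => h6 (Subtype.ext h)
      rw [h7, h8]
      simp
  have h4 : ∀ i, ∃ k : ℤ, (c u).2 i + (c v).2 i = k + k := by
    intro i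
    have h5 : Even ((c u).2 i) ↔ Even ((c v).2 i) := by simpa using congrFun h2 i
    exact Int.even_add.2 h5
  choose k hk using h4
  refine ⟨∏ i, (NumberField.Units.fundSystem K7 i) ^ k i, ?_⟩
  rw [hc u, hc v, mul_mul_mul_comm, h3, one_mul, ← Finset.prod_mul_distrib,
    ← Finset.prod_mul_distrib]
  refine Finset.prod_congr rfl fun i _ => ?_
  rw [← zpow_add, ← zpow_add, hk]

/-- a unit as an element of the field -/
def ku : (𝓞 K7)ˣ →* K7 := ((algebraMap (𝓞 K7) K7 : 𝓞 K7 →+* K7) : 𝓞 K7 →* K7).comp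
  (Units.coeHom (𝓞 K7))

theorem ku_ne_zero (u : (𝓞 K7)ˣ) : ku u ≠ 0 := by
  have h : ku u * ku u⁻¹ = 1 := by rw [← map_mul, mul_inv_cancel, map_one]
  exact left_ne_zero_of_mul_eq_one h

theorem ku_uT : ku uT = t7 := rfl

theorem ku_uS : ku uS = 1 + t7 := rfl

theorem ku_neg_one : ku (-1) = -1 := by
  change algebraMap (𝓞 K7) K7 ((-1 : (𝓞 K7)ˣ) : 𝓞 K7) = -1
  rw [Units.val_neg, Units.val_one, map_neg, map_one]

theorem ku_inj {u v : (𝓞 K7)ˣ} (h : ku u = ku v) : u = v :=
  Units.ext (RingOfIntegers.ext h)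

/-- the three real embeddings -/
def em : Fin 3 → K7 →+* ℝ :=
  ![i7, i7.comp s7.toRingHom, i7.comp (s7.toRingHom.comp s7.toRingHom)]

theorem em0 (x : K7) : em 0 x = i7 x := rfl

theorem em1 (x : K7) : em 1 x = i7 (s7 x) := rfl

theorem em2 (x : K7) : em 2 x = i7 (s7 (s7 x)) := rfl

theorem sgn_mul {r : ℝ} (b : Bool) (hr : 0 < r) : 0 < (if b then (-1 : ℝ) else 1) * r ↔
    b = false := by
  cases b
  · simpa using hr
  · simpa using hr.le

/-- A totally positive unit is a square. -/
theorem sq_of_pos (v : (𝓞 K7)ˣ) (hv : ∀ i, 0 < em i (ku v)) : IsSquare v := by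
  by_contra hns
  obtain ⟨ρ, hρ⟩ := exists_rep
  -- sixteen units
  set Φ : Bool × Bool × Bool × Bool → (𝓞 K7)ˣ := fun x =>
    (if x.1 then v else 1) * ((if x.2.1 then -1 else 1) * ((if x.2.2.1 then uT else 1) *
      (if x.2.2.2 then uS else 1))) with hΦ
  have hT0 : 0 < em 0 t7 := by rw [em0, i7_t7]; linarith [th_gt]
  have hT1 : em 1 t7 < 0 := by rw [em1, i7_s7_t7]; linarith [bd2.2]
  have hT2 : em 2 t7 < 0 := by rw [em2, i7_s7_s7_t7]; linarith [bd3]
  have hS0 : 0 < 1 + em 0 t7 := by rw [em0, i7_t7]; linarith [th_gt]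
  have hS1 : 0 < 1 + em 1 t7 := by rw [em1, i7_s7_t7]; linarith [bd2.1]
  have hS2 : 1 + em 2 t7 < 0 := by rw [em2, i7_s7_s7_t7]; linarith [bd3]
  have hval : ∀ i x, em i (ku (Φ x)) = (if x.1 then em i (ku v) else 1) *
      ((if x.2.1 then -1 else 1) * ((if x.2.2.1 then em i t7 else 1) *
      (if x.2.2.2 then 1 + em i t7 else 1))) := by
    intro i x
    have h1 : ∀ (b : Bool) (u : (𝓞 K7)ˣ), em i (ku (if b then u else 1)) =
        if b then em i (ku u) else 1 := by
      intro b u
      cases b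
      · simp
      · simp
    rw [hΦ]
    simp only [map_mul]
    rw [h1, h1, h1, h1, ku_neg_one, ku_uT, ku_uS, map_neg, map_add, map_one]
  have hpa : ∀ i (b : Bool), 0 < (if b then em i (ku v) else 1 : ℝ) := by
    intro i b
    cases b
    · simp
    · simpa using hv i
  -- the signs
  have q0 : ∀ x, 0 < em 0 (ku (Φ x)) ↔ x.2.1 = false := by
    rintro ⟨a, b, c, d⟩
    rw [hval, mul_pos_iff_of_pos_left (hpa 0 a)]
    have hc : 0 < (if c then em 0 t7 else 1 : ℝ) := by
      cases c
      · simp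
      · simpa using hT0
    have hd : 0 < (if d then 1 + em 0 t7 else 1 : ℝ) := by
      cases d
      · simp
      · simpa using hS0
    exact sgn_mul b (mul_pos hc hd)
  have q1 : ∀ x, 0 < em 1 (ku (Φ x)) ↔ x.2.1 = x.2.2.1 := by
    rintro ⟨a, b, c, d⟩
    rw [hval, mul_pos_iff_of_pos_left (hpa 1 a), ← mul_assoc]
    have hd : 0 < (if d then 1 + em 1 t7 else 1 : ℝ) := by
      cases d
      · simp
      · simpa using hS1
    rw [mul_pos_iff_of_pos_right hd]
    cases b <;> cases c
    · simp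
    · simpa using hT1.le
    · simp
    · simpa using hT1
  have q2 : ∀ x, 0 < em 2 (ku (Φ x)) ↔ xor x.2.1 (xor x.2.2.1 x.2.2.2) = false := by
    rintro ⟨a, b, c, d⟩
    rw [hval, mul_pos_iff_of_pos_left (hpa 2 a)]
    have h4 := mul_pos_of_neg_of_neg hT2 hS2
    cases b <;> cases c <;> cases d
    · simp
    · simpa using hS2.le
    · simpa using hT2.le
    · simpa using h4
    · simp
    · simp only [if_true]
      simp
      linarith
    · simpa using hT2
    · simpa using h4.le
  have hinj : Function.Injective fun x => ρ (Φ x) := by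
    intro x y hxy
    obtain ⟨w, hw⟩ := hρ _ _ hxy
    have hpos : ∀ i, 0 < em i (ku (Φ x)) ↔ 0 < em i (ku (Φ y)) := by
      intro i
      have h1 : em i (ku (Φ x)) * em i (ku (Φ y)) = em i (ku w) * em i (ku w) := by
        rw [← map_mul, ← map_mul, hw, map_mul, map_mul]
      have h2 : em i (ku w) ≠ 0 := (_root_.map_ne_zero _).2 (ku_ne_zero w)
      have h3 : 0 < em i (ku (Φ x)) * em i (ku (Φ y)) := by
        rw [h1]
        exact mul_self_pos.2 h2
      exact ⟨fun h => pos_of_mul_pos_right h3 h.le, fun h => pos_of_mul_pos_left h3 h.le⟩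
    have r0 := hpos 0
    have r1 := hpos 1
    have r2 := hpos 2
    rw [q0, q0] at r0
    rw [q1, q1] at r1
    rw [q2, q2] at r2
    obtain ⟨a, b, c, d⟩ := x
    obtain ⟨a', b', c', d'⟩ := y
    have hbcd : b = b' ∧ c = c' ∧ d = d' := by
      revert r0 r1 r2
      cases b <;> cases b' <;> cases c <;> cases c' <;> cases d <;> cases d' <;> simp
    obtain ⟨rfl, rfl, rfl⟩ := hbcd
    by_cases ha : a = a'
    · rw [ha]
    · exfalso
      apply hns
      set z : (𝓞 K7)ˣ := ((if b then -1 else 1) * ((if c then uT else 1) *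
        (if d then uS else 1))) with hz
      have h1 : Φ (a, b, c, d) * Φ (a', b, c, d) = v * (z * z) := by
        change ((if a then v else 1) * z) * ((if a' then v else 1) * z) = v * (z * z)
        cases a <;> cases a'
        · exact (ha rfl).elim
        · simp [mul_left_comm]
        · simp [mul_assoc]
        · exact (ha rfl).elim
      rw [h1] at hw
      refine ⟨w * z⁻¹, ?_⟩
      calc v = v * (z * z) * (z⁻¹ * z⁻¹) := by
            rw [mul_assoc v, mul_mul_mul_comm z z, mul_inv_cancel, mul_one, mul_one]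
        _ = _ := by rw [hw, mul_mul_mul_comm]
  have hcard := Fintype.card_le_of_injective _ hinj
  simp only [Fintype.card_prod, Fintype.card_bool, Fintype.card_fun, Fintype.card_fin] at hcard
  have h2 : 2 ^ NumberField.Units.rank K7 ≤ 2 ^ 2 := Nat.pow_le_pow_right (by norm_num) rank7
  omega

end Pool.Agent.ZCQS
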