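import Pool.Agent.ZCQ.Mordell

/-!
# The map `(x(P), x(Q)) ↦ (x(P + Q), x(P - Q))` and Mordell's theorem, without two-torsion
-/

set_option autoImplicit false

noncomputable section

namespace Pool.Agent.ZCQS

open WeierstrassCurve Pool.Agent.ZC Pool.Agent.ZCQ
open scoped Classical

variable {K : Type} [Field K] [NeZero (2 : K)] {W : WeierstrassCurve K}

omit [NeZero (2 : K)] in
private theorem evalv (W : WeierstrassCurve K) (s t u : K) :
    (fun i => (W.addSubMap i).eval ![s, t, u]) =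
      ![s ^ 2 - W.b₄ * s * u - W.b₆ * t * u - W.b₈ * u ^ 2,
        2 * t * s + W.b₂ * s * u + W.b₄ * t * u + W.b₆ * u ^ 2, t ^ 2 - 4 * s * u] := by
  funext i
  fin_cases i <;> simp [addSubMap]

omit [Field K] [NeZero (2 : K)] in
private theorem vec3 {a b c a' b' c' : K} (h1 : a = a') (h2 : b = b') (h3 : c = c') :
    (![a, b, c] : Fin 3 → K) = ![a', b', c'] := by
  rw [h1, h2, h3]

omit [NeZero (2 : K)] in
private theorem smul3 (d a b c : K) : d • (![a, b, c] : Fin 3 → K) = ![d * a, d * b, d * c] := by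
  funext i
  fin_cases i <;> simp

/- PROOF (Mathlib: AlgebraicGeometry/EllipticCurve/Affine/AddSubMap.lean, `sym2x_some_some` etc.).
`Q = 0` or `P = 0`: `c = 1` (`P - Q = -Q`, `sym2x_neg_right`). `P = (x₁, y₁)`, `Q = (x₂, y₂)` with
`x₁ ≠ x₂`: `c = (x₁ - x₂)²` (formulas for `addX` with the slopes of `P + Q` and `P + (-Q)`).
`x₁ = x₂`: `Q = P` or `Q = -P`, `P ± Q` are `2P` and `0` in some order (`sym2x_comm`); if `y₁ ≠ 0` then
`c = 4 y₁²`, if `y₁ = 0` then both are `0` and `c` is the first coordinate, not zero by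
`WeierstrassCurve.addSubMap_ne_zero`. `b₂, b₄, b₆, b₈` in terms of the coefficients; `a₁ = a₃ = 0`. -/
private theorem addSubMap_sym2x_cl (ha1 : W.a₁ = 0) (ha3 : W.a₃ = 0) (hell : W.IsElliptic) (P Q : W.toAffine.Point) :
    ∃ c : K, c ≠ 0 ∧ (fun i => (W.addSubMap i).eval (P.sym2x Q)) =
      c • ((P + Q).sym2x (P - Q)) := by
  have hb2 : W.b₂ = 4 * W.a₂ := by
    rw [WeierstrassCurve.b₂, ha1]
    ring
  have hb4 : W.b₄ = 2 * W.a₄ := by
    rw [WeierstrassCurve.b₄, ha1, ha3]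
    ring
  have hb6 : W.b₆ = 4 * W.a₆ := by
    rw [WeierstrassCurve.b₆, ha3]
    ring
  have hb8 : W.b₈ = 4 * W.a₂ * W.a₆ - W.a₄ ^ 2 := by
    rw [WeierstrassCurve.b₈, ha1, ha3]
    ring
  have h2 : (2 : K) ≠ 0 := NeZero.ne 2
  rcases P with _ | ⟨x₁, y₁, h₁⟩
  · rcases Q with _ | ⟨x₂, y₂, h₂⟩
    · refine ⟨1, one_ne_zero, ?_⟩
      rw [← Affine.Point.zero_def, sub_zero, add_zero, Affine.Point.sym2x_zero_zero, evalv, smul3]
      exact vec3 (by ring) (by ring) (by ring)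
    · refine ⟨1, one_ne_zero, ?_⟩
      rw [← Affine.Point.zero_def, zero_sub, zero_add, Affine.Point.sym2x_neg_right,
        Affine.Point.sym2x_zero_some, Affine.Point.sym2x_some_some, evalv, smul3]
      exact vec3 (by ring) (by ring) (by ring)
  rcases Q with _ | ⟨x₂, y₂, h₂⟩
  · refine ⟨1, one_ne_zero, ?_⟩
    rw [← Affine.Point.zero_def, sub_zero, add_zero,
      Affine.Point.sym2x_some_zero, Affine.Point.sym2x_some_some, evalv, smul3]
    exact vec3 (by ring) (by ring) (by ring)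
  have E₁ := (Affine.equation_iff ..).1 h₁.1
  have E₂ := (Affine.equation_iff ..).1 h₂.1
  rw [ha1, ha3] at E₁ E₂
  have hneg : ∀ x y : K, W.toAffine.negY x y = -y := by
    intro x y
    rw [Affine.negY, ha1, ha3]
    ring
  by_cases hx : x₁ = x₂
  · subst hx
    by_cases hy : y₁ = 0
    · -- both sums are zero
      have hy₂ : y₂ = 0 := by
        rcases Affine.Y_eq_of_X_eq h₁.1 h₂.1 rfl with h3 | h3
        · rw [← h3, hy]
        · rw [hneg] at h3
          rw [hy] at h3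
          exact (neg_eq_zero.1 h3.symm)
      subst hy
      subst hy₂
      have hadd : (Affine.Point.some x₁ 0 h₁ : W.toAffine.Point) + Affine.Point.some x₁ 0 h₂ = 0 :=
        Affine.Point.add_of_Y_eq rfl (by rw [hneg, neg_zero])
      have hsub : (Affine.Point.some x₁ 0 h₁ : W.toAffine.Point) - Affine.Point.some x₁ 0 h₂ = 0 :=
        sub_self _
      have hne := addSubMap_ne_zero W (Affine.Point.sym2x_ne_zero
        (Affine.Point.some x₁ 0 h₁ : W.toAffine.Point) (Affine.Point.some x₁ 0 h₂))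
      rw [hadd, hsub, Affine.Point.sym2x_zero_zero]
      rw [Affine.Point.sym2x_some_some, evalv] at hne ⊢
      have e2 : 2 * (x₁ + x₁) * (x₁ * x₁) + W.b₂ * (x₁ * x₁) * 1 + W.b₄ * (x₁ + x₁) * 1 +
          W.b₆ * 1 ^ 2 = 0 := by
        rw [hb2, hb4, hb6]
        linear_combination (-4) * E₁
      have e3 : (x₁ + x₁) ^ 2 - 4 * (x₁ * x₁) * 1 = 0 := by ring
      rw [e2, e3] at hne ⊢
      refine ⟨_, ?_, (smul3 ((x₁ * x₁) ^ 2 - W.b₄ * (x₁ * x₁) * 1 - W.b₆ * (x₁ + x₁) * 1 -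
        W.b₈ * 1 ^ 2) 1 0 0).symm ▸ (vec3 (mul_one _).symm (mul_zero _).symm (mul_zero _).symm)⟩
      intro h0
      apply hne
      rw [h0]
      funext i
      fin_cases i <;> rfl
    · -- one of the sums is the double
      have hy' : y₁ ≠ W.toAffine.negY x₁ y₁ := by
        rw [hneg]
        intro h3
        apply hy
        have h4 : 2 * y₁ = 0 := by linear_combination h3
        exact (mul_eq_zero.1 h4).resolve_left h2
      have hc : (4 : K) * y₁ ^ 2 ≠ 0 := by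
        have : (4 : K) = 2 * 2 := by norm_num
        rw [this]
        exact mul_ne_zero (mul_ne_zero h2 h2) (pow_ne_zero 2 hy)
      have hX : 4 * y₁ ^ 2 * W.toAffine.addX x₁ x₁ (W.toAffine.slope x₁ x₁ y₁ y₁) =
          (x₁ * x₁) ^ 2 - W.b₄ * (x₁ * x₁) * 1 - W.b₆ * (x₁ + x₁) * 1 - W.b₈ * 1 ^ 2 := by
        rw [Affine.slope_of_Y_ne rfl hy', Affine.addX, hneg, ha1, hb4, hb6, hb8]
        have h3 : y₁ - -y₁ = 2 * y₁ := by ring
        rw [h3]
        field_simp
        linear_combination (-(16 * W.a₂ + 32 * x₁)) * E₁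
      have e2 : 2 * (x₁ + x₁) * (x₁ * x₁) + W.b₂ * (x₁ * x₁) * 1 + W.b₄ * (x₁ + x₁) * 1 +
          W.b₆ * 1 ^ 2 = 4 * y₁ ^ 2 := by
        rw [hb2, hb4, hb6]
        linear_combination (-4) * E₁
      have hdbl : ∀ h₂ : W.toAffine.Nonsingular x₁ y₁,
          (Affine.Point.some x₁ y₁ h₁ : W.toAffine.Point) + Affine.Point.some x₁ y₁ h₂ =
          Affine.Point.some _ _ (Affine.nonsingular_add h₁ h₂ fun hxy => hy' hxy.right) :=
        fun h₂ => Affine.Point.add_of_Y_ne hy'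
      refine ⟨4 * y₁ ^ 2, hc, ?_⟩
      rcases Affine.Y_eq_of_X_eq h₁.1 h₂.1 rfl with h3 | h3
      · subst h3
        have hsub : (Affine.Point.some x₁ y₁ h₁ : W.toAffine.Point) -
            Affine.Point.some x₁ y₁ h₂ = 0 := sub_self _
        rw [hdbl, hsub, Affine.Point.sym2x_some_zero, Affine.Point.sym2x_some_some, evalv, smul3]
        exact vec3 hX.symm (by rw [e2, mul_one]) (by ring)
      · rw [hneg] at h3
        have h4 : y₂ = -y₁ := by rw [h3, neg_neg]
        subst h4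
        have hQ : (Affine.Point.some x₁ (-y₁) h₂ : W.toAffine.Point) =
            -Affine.Point.some x₁ y₁ h₁ := by
          rw [Affine.Point.neg_some]
          congr 1
          exact (hneg _ _).symm
        rw [hQ, add_neg_cancel, sub_neg_eq_add, hdbl h₁, Affine.Point.sym2x_neg_right,
          Affine.Point.sym2x_zero_some, Affine.Point.sym2x_some_some, evalv, smul3]
        exact vec3 hX.symm (by rw [e2, mul_one]) (by ring)
  · have hd : x₁ - x₂ ≠ 0 := sub_ne_zero.2 hx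
    refine ⟨(x₁ - x₂) ^ 2, pow_ne_zero 2 hd, ?_⟩
    have hn₂ : W.toAffine.Nonsingular x₂ (W.toAffine.negY x₂ y₂) :=
      (Affine.nonsingular_neg ..).mpr h₂
    have hadd : (Affine.Point.some x₁ y₁ h₁ : W.toAffine.Point) + Affine.Point.some x₂ y₂ h₂ =
        Affine.Point.some _ _ (Affine.nonsingular_add h₁ h₂ fun hxy => hx hxy.left) :=
      Affine.Point.add_of_X_ne hx
    have hsub : (Affine.Point.some x₁ y₁ h₁ : W.toAffine.Point) - Affine.Point.some x₂ y₂ h₂ =
        Affine.Point.some _ _ (Affine.nonsingular_add h₁ hn₂ fun hxy => hx hxy.left) := by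
      rw [sub_eq_add_neg, Affine.Point.neg_some]
      exact Affine.Point.add_of_X_ne hx
    rw [hadd, hsub, Affine.Point.sym2x_some_some, Affine.Point.sym2x_some_some, evalv, smul3]
    rw [Affine.slope_of_X_ne hx, Affine.slope_of_X_ne hx, hneg, Affine.addX, Affine.addX, ha1,
      hb2, hb4, hb6, hb8]
    obtain ⟨u, hu⟩ : ∃ u, u = (y₁ - y₂) / (x₁ - x₂) := ⟨_, rfl⟩
    obtain ⟨v, hv⟩ : ∃ v, v = (y₁ - -y₂) / (x₁ - x₂) := ⟨_, rfl⟩
    rw [← hu, ← hv]
    have hu' : u * (x₁ - x₂) = y₁ - y₂ := by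
      rw [hu]
      field_simp
    have hv' : v * (x₁ - x₂) = y₁ + y₂ := by
      rw [hv]
      field_simp
      ring
    have hw : u * v * (x₁ - x₂) = x₁ ^ 2 + x₁ * x₂ + x₂ ^ 2 + W.a₂ * (x₁ + x₂) + W.a₄ := by
      apply mul_right_cancel₀ hd
      linear_combination v * (x₁ - x₂) * hu' + (y₁ - y₂) * hv' + E₁ - E₂
    refine vec3 ?_ ?_ (by ring)
    · linear_combination (-(u * v * (x₁ - x₂) + (x₁ ^ 2 + x₁ * x₂ + x₂ ^ 2 +
        W.a₂ * (x₁ + x₂) + W.a₄))) * hw +
        (W.a₂ + x₁ + x₂) * (u * (x₁ - x₂) + (y₁ - y₂)) * hu' +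
        (W.a₂ + x₁ + x₂) * (v * (x₁ - x₂) + (y₁ + y₂)) * hv' +
        2 * (W.a₂ + x₁ + x₂) * (E₁ + E₂)
    · linear_combination (-(u * (x₁ - x₂) + (y₁ - y₂))) * hu' -
        (v * (x₁ - x₂) + (y₁ + y₂)) * hv' - 2 * (E₁ + E₂)

theorem addSubMap_sym2x [d : DecidableEq K] (ha1 : W.a₁ = 0) (ha3 : W.a₃ = 0) (hell : W.IsElliptic) (P Q : W.toAffine.Point) :
    ∃ c : K, c ≠ 0 ∧ (fun i => (W.addSubMap i).eval (P.sym2x Q)) =
      c • ((P + Q).sym2x (P - Q)) := by
  have hd : d = fun a b => Classical.propDecidable (a = b) := Subsingleton.elim _ _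
  subst hd
  exact addSubMap_sym2x_cl ha1 ha3 hell P Q

private def ht {W : WeierstrassCurve ℚ} (P : W.toAffine.Point) : ℝ := Height.logHeight P.xRep

private theorem xRep_vec {W : WeierstrassCurve ℚ} (P : W.toAffine.Point) :
    P.xRep = ![P.xRep 0, P.xRep 1] := by
  ext i
  fin_cases i <;> rfl

private theorem sym_le {W : WeierstrassCurve ℚ} : ∃ C : ℝ, ∀ P Q : W.toAffine.Point,
    |Height.logHeight (P.sym2x Q) - (ht P + ht Q)| ≤ C := by
  obtain ⟨C, hC⟩ := Height.abs_logHeight_sym2_sub_le ℚ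
  refine ⟨C, fun P Q => ?_⟩
  have hP : ![P.xRep 0, P.xRep 1] ≠ 0 := by
    rw [← xRep_vec]
    exact P.xRep_ne_zero
  have hQ : ![Q.xRep 0, Q.xRep 1] ≠ 0 := by
    rw [← xRep_vec]
    exact Q.xRep_ne_zero
  have h1 := hC hP hQ
  rw [← xRep_vec, ← xRep_vec] at h1
  exact h1

private theorem para {W : WeierstrassCurve ℚ} (ha1 : W.a₁ = 0) (ha3 : W.a₃ = 0)
    (hell : W.IsElliptic) :
    ∃ C : ℝ, ∀ P Q : W.toAffine.Point,
      |ht (P + Q) + ht (P - Q) - 2 * (ht P + ht Q)| ≤ C := by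
  obtain ⟨C₁, h₁⟩ := sym_le (W := W)
  obtain ⟨C₂, h₂⟩ := W.abs_logHeight_addSubMap_sub_two_mul_logHeight_le
  refine ⟨3 * C₁ + C₂, fun P Q => ?_⟩
  obtain ⟨c, hc, hcc⟩ : ∃ c : ℚ, c ≠ 0 ∧ (fun i => (W.addSubMap i).eval (P.sym2x Q)) =
      c • ((P + Q).sym2x (P - Q)) := addSubMap_sym2x ha1 ha3 hell P Q
  have a1 := abs_le.1 (h₁ P Q)
  have a2 := abs_le.1 (h₁ (P + Q) (P - Q))
  have a3 := h₂ (P.sym2x Q)
  rw [hcc, Height.logHeight_smul_eq_logHeight _ hc] at a3
  have a3 := abs_le.1 a3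
  rw [abs_le]
  constructor <;> linarith [a1.1, a1.2, a2.1, a2.2, a3.1, a3.2]

private theorem northcott {W : WeierstrassCurve ℚ} : Northcott (ht (W := W)) where
  finite_le b := by
    have h1 : (insert (![1, 0] : Fin 2 → ℚ)
        ((fun x : ℚ => (![x, 1] : Fin 2 → ℚ)) '' {x : ℚ | Height.logHeight₁ x ≤ b})).Finite :=
      ((Northcott.finite_le (h := Height.logHeight₁ (K := ℚ)) b).image _).insert _
    have h2 : {P : W.toAffine.Point | ht P ≤ b} ⊆ (fun P : W.toAffine.Point => P.xRep) ⁻¹'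
        (insert (![1, 0] : Fin 2 → ℚ)
        ((fun x : ℚ => (![x, 1] : Fin 2 → ℚ)) '' {x : ℚ | Height.logHeight₁ x ≤ b})) := by
      intro P hP
      match P with
      | 0 => exact Set.mem_insert _ _
      | .some x y hxy =>
        refine Set.mem_insert_of_mem _ ⟨x, ?_, rfl⟩
        have h3 : ht (Affine.Point.some x y hxy) ≤ b := hP
        unfold ht at h3
        rw [Affine.Point.xRep_some] at h3
        show Height.logHeight₁ x ≤ b
        rw [Height.logHeight₁_eq_logHeight]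
        exact h3
    refine Set.Finite.subset ?_ h2
    refine Set.Finite.preimage' h1 fun v _ => ?_
    by_cases hv : ∃ P : W.toAffine.Point, P.xRep = v
    · obtain ⟨P, rfl⟩ := hv
      refine (Set.toFinite {P, -P}).subset fun Q hQ => ?_
      have h4 : Q.xRep = P.xRep := hQ
      rcases Affine.Point.eq_or_eq_neg_of_xRep_eq_xRep h4 with h5 | h5
      · exact Or.inl h5
      · exact Or.inr h5
    · refine (Set.finite_empty).subset fun Q hQ => hv ⟨Q, hQ⟩

/-- Mordell's theorem from the weak Mordell-Weil theorem. -/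
theorem fg_of_index {W : WeierstrassCurve ℚ} (ha1 : W.a₁ = 0) (ha3 : W.a₃ = 0)
    (hell : W.IsElliptic) (hfi : (nsmulAddMonoidHom (α := W.toAffine.Point) 2).range.FiniteIndex) :
    AddGroup.FG W.toAffine.Point := by
  obtain ⟨C, hC⟩ := para ha1 ha3 hell
  have := northcott (W := W)
  exact AddCommGroup.fg_of_descent' (h := ht (W := W)) (C := C) hfi
    (fun P => Height.logHeight_nonneg _) hC

end Pool.Agent.ZCQS
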