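import Mathlib

/-!
# The cubic field of the zeros of `X³ + X² - 2 X - 1`
-/

set_option autoImplicit false

noncomputable section

namespace Pool.Agent.ZCQS

open Polynomial IntermediateField NumberField

/-- The polynomial `X³ + X² - 2 X - 1`. -/
def f7 : ℚ[X] := X ^ 3 + X ^ 2 - 2 * X - 1

theorem exists_root7 : ∃ a : ℝ, a ^ 3 + a ^ 2 - 2 * a - 1 = 0 ∧ 6 / 5 < a ∧ a < 13 / 10 := by
  have hc : ContinuousOn (fun a : ℝ => a ^ 3 + a ^ 2 - 2 * a - 1) (Set.Icc (6 / 5) (13 / 10)) := by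
    fun_prop
  have h := intermediate_value_Ioo (by norm_num) hc
  have h0 : (0 : ℝ) ∈ Set.Ioo ((6 / 5 : ℝ) ^ 3 + (6 / 5) ^ 2 - 2 * (6 / 5) - 1)
      ((13 / 10 : ℝ) ^ 3 + (13 / 10) ^ 2 - 2 * (13 / 10) - 1) := by
    constructor <;> norm_num
  obtain ⟨a, ha, h1⟩ := h h0
  exact ⟨a, h1, ha.1, ha.2⟩

/-- The largest zero of `X³ + X² - 2 X - 1`. -/
def th : ℝ := exists_root7.choose

theorem th_eq : th ^ 3 + th ^ 2 - 2 * th - 1 = 0 := exists_root7.choose_spec.1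

theorem th_gt : 6 / 5 < th := exists_root7.choose_spec.2.1

theorem th_lt : th < 13 / 10 := exists_root7.choose_spec.2.2

theorem f7_natDegree : f7.natDegree = 3 := by
  unfold f7
  compute_degree!

theorem f7_monic : f7.Monic := by
  unfold f7
  monicity!

theorem f7_irreducible : Irreducible f7 := by
  refine irreducible_of_degree_le_three_of_not_isRoot (by rw [f7_natDegree]; decide) ?_
  intro q hq
  have h1 : q ^ 3 + q ^ 2 - 2 * q - 1 = 0 := by
    have h2 : f7.eval q = 0 := hq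
    simpa [f7] using h2
  have h2 := Rat.num_div_den q
  set m := q.num with hm
  set n := q.den with hn
  have hn0 : (n : ℚ) ≠ 0 := by exact_mod_cast q.den_ne_zero
  rw [← h2] at h1
  have h3 : (m : ℚ) ^ 3 + (m : ℚ) ^ 2 * n - 2 * m * n ^ 2 - n ^ 3 = 0 := by
    field_simp at h1
    linear_combination h1
  have h4 : m ^ 3 + m ^ 2 * n - 2 * m * n ^ 2 - (n : ℤ) ^ 3 = 0 := by exact_mod_cast h3
  have hcop : IsCoprime m (n : ℤ) := by
    rw [Int.isCoprime_iff_nat_coprime]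
    exact q.reduced
  have h5 : m % 2 = 0 ∧ (n : ℤ) % 2 = 0 := by
    have h6 := congrArg (fun z : ℤ => (z : ZMod 2)) h4
    push_cast at h6
    have h7 : ∀ a b : ZMod 2, a ^ 3 + a ^ 2 * b - 2 * a * b ^ 2 - b ^ 3 = 0 → a = 0 ∧ b = 0 := by
      decide
    obtain ⟨h8, h9⟩ := h7 _ _ h6
    have h10 : ((n : ℤ) : ZMod 2) = 0 := by simpa using h9
    rw [ZMod.intCast_zmod_eq_zero_iff_dvd] at h8 h10
    push_cast at h8 h10
    omega
  have h8 := hcop.isUnit_of_dvd' (Int.dvd_of_emod_eq_zero h5.1) (Int.dvd_of_emod_eq_zero h5.2)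
  rw [Int.isUnit_iff] at h8
  omega

theorem aeval_f7 {A : Type*} [CommRing A] [Algebra ℚ A] (x : A) :
    aeval x f7 = x ^ 3 + x ^ 2 - 2 * x - 1 := by
  unfold f7
  simp only [map_sub, map_add, map_mul, map_pow, map_one, map_ofNat, aeval_X]

theorem minpoly_th : minpoly ℚ th = f7 :=
  (minpoly.eq_of_irreducible_of_monic f7_irreducible (by rw [aeval_f7]; exact th_eq)
    f7_monic).symm

theorem isIntegral_th : IsIntegral ℚ th := ⟨f7, f7_monic, by
  rw [← aeval_def, aeval_f7]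
  exact th_eq⟩

/-- The cubic field. -/
abbrev K7 : IntermediateField ℚ ℝ := ℚ⟮th⟯

instance : FiniteDimensional ℚ K7 := adjoin.finiteDimensional isIntegral_th

instance : NumberField K7 where
  to_charZero := inferInstance
  to_finiteDimensional := inferInstance

/-- the largest zero in the cubic field -/
def t7 : K7 := AdjoinSimple.gen ℚ th

theorem coe_t7 : (t7 : ℝ) = th := AdjoinSimple.coe_gen ℚ th

theorem t7_eq : t7 ^ 3 + t7 ^ 2 - 2 * t7 - 1 = 0 := by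
  apply Subtype.ext
  push_cast
  rw [coe_t7]
  exact th_eq

/-- the power basis -/
def pb7 : PowerBasis ℚ K7 := adjoin.powerBasis isIntegral_th

theorem pb7_gen : pb7.gen = t7 := rfl

theorem pb7_dim : pb7.dim = 3 := by
  change (minpoly ℚ th).natDegree = 3
  rw [minpoly_th, f7_natDegree]

theorem minpoly_t7 : minpoly ℚ t7 = f7 :=
  (minpoly.eq_of_irreducible_of_monic f7_irreducible (by rw [aeval_f7]; exact t7_eq)
    f7_monic).symm

theorem finrank_K7 : Module.finrank ℚ K7 = 3 := by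
  rw [pb7.finrank, pb7_dim]

/-- the automorphism -/
def s7 : K7 →ₐ[ℚ] K7 := pb7.lift (t7 ^ 2 - 2) (by
  rw [pb7_gen, minpoly_t7, aeval_f7]
  linear_combination (t7 ^ 3 - t7 ^ 2 - 2 * t7 + 1) * t7_eq)

theorem s7_t7 : s7 t7 = t7 ^ 2 - 2 := pb7.lift_gen _ _

theorem s7_s7_t7 : s7 (s7 t7) = (t7 ^ 2 - 2) ^ 2 - 2 := by
  rw [s7_t7, map_sub, map_pow, s7_t7, map_ofNat]

theorem s7_cube (x : K7) : s7 (s7 (s7 x)) = x := by
  have h : (s7.comp (s7.comp s7)) = AlgHom.id ℚ K7 := by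
    apply pb7.algHom_ext
    rw [pb7_gen]
    change s7 (s7 (s7 t7)) = t7
    rw [s7_t7, map_sub, map_sub, map_pow, map_pow, s7_t7, map_ofNat, map_ofNat, map_sub, map_pow,
      s7_t7, map_ofNat]
    linear_combination (t7 ^ 5 - t7 ^ 4 - 5 * t7 ^ 3 + 4 * t7 ^ 2 + 5 * t7 - 2) * t7_eq
  exact congrArg (fun g : K7 →ₐ[ℚ] K7 => g x) h

/-- the basis `1, t, t²` -/
def b7 : Module.Basis (Fin 3) ℚ K7 := pb7.basis.reindex (finCongr pb7_dim)

theorem b7_apply (i : Fin 3) : b7 i = t7 ^ (i : ℕ) := by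
  unfold b7
  rw [Module.Basis.reindex_apply, pb7.basis_eq_pow]
  rfl

theorem exists_coord (x : K7) : ∃ a b c : ℚ, x = algebraMap ℚ K7 a + algebraMap ℚ K7 b * t7 +
    algebraMap ℚ K7 c * t7 ^ 2 := by
  refine ⟨b7.repr x 0, b7.repr x 1, b7.repr x 2, ?_⟩
  have h := b7.sum_repr x
  rw [Fin.sum_univ_three, b7_apply, b7_apply, b7_apply] at h
  conv_lhs => rw [← h]
  simp [Algebra.smul_def]

theorem coord_zero {a b c : ℚ} (h : algebraMap ℚ K7 a + algebraMap ℚ K7 b * t7 +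
    algebraMap ℚ K7 c * t7 ^ 2 = 0) : a = 0 ∧ b = 0 ∧ c = 0 := by
  have h1 := Fintype.linearIndependent_iff.1 b7.linearIndependent ![a, b, c] (by
    rw [Fin.sum_univ_three, b7_apply, b7_apply, b7_apply]
    simpa [Algebra.smul_def] using h)
  exact ⟨h1 0, h1 1, h1 2⟩

/-- The rational numbers are the fixed points. -/
theorem s7_fix (x : K7) (hx : s7 x = x) : ∃ q : ℚ, algebraMap ℚ K7 q = x := by
  obtain ⟨a, b, c, rfl⟩ := exists_coord x
  simp only [map_add, map_mul, AlgHom.commutes, map_pow, s7_t7] at hx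
  have h : algebraMap ℚ K7 (-2 * b + 3 * c) + algebraMap ℚ K7 (-c - b) * t7 +
      algebraMap ℚ K7 (b - 2 * c) * t7 ^ 2 = 0 := by
    simp only [map_add, map_sub, map_mul, map_neg, map_ofNat]
    linear_combination hx - algebraMap ℚ K7 c * (t7 - 1) * t7_eq
  obtain ⟨h1, h2, h3⟩ := coord_zero h
  have hc : c = 0 := by linarith
  have hb : b = 0 := by linarith
  refine ⟨a, ?_⟩
  rw [hb, hc]
  simp

theorem tr_one : Algebra.trace ℚ K7 1 = 3 := by
  have h := Algebra.trace_algebraMap_of_basis b7 (1 : ℚ)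
  simpa using h

theorem tr_t7 : Algebra.trace ℚ K7 t7 = -1 := by
  rw [← pb7_gen, pb7.trace_gen_eq_nextCoeff_minpoly, pb7_gen, minpoly_t7,
    nextCoeff_of_natDegree_pos (by rw [f7_natDegree]; norm_num), f7_natDegree]
  simp [f7, coeff_X, coeff_one]

/-- the automorphism as an equivalence -/
def e7 : K7 ≃ₐ[ℚ] K7 := AlgEquiv.ofAlgHom s7 (s7.comp s7) (AlgHom.ext s7_cube)
  (AlgHom.ext s7_cube)

theorem tr_t7_two : Algebra.trace ℚ K7 (t7 ^ 2) = 5 := by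
  have h : Algebra.trace ℚ K7 (e7 t7) = Algebra.trace ℚ K7 t7 := Algebra.trace_eq_of_algEquiv e7 t7
  have h1 : e7 t7 = t7 ^ 2 - (2 : ℚ) • (1 : K7) := by
    change s7 t7 = _
    rw [s7_t7, Algebra.smul_def, mul_one, map_ofNat]
  rw [h1, map_sub, map_smul, tr_one, tr_t7] at h
  have h2 : (2 : ℚ) • (3 : ℚ) = 6 := by norm_num
  rw [h2] at h
  linarith

theorem t7_three : t7 ^ 3 = (1 : K7) + (2 : ℚ) • t7 - t7 ^ 2 := by
  rw [Algebra.smul_def, map_ofNat]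
  linear_combination t7_eq

theorem t7_four : t7 ^ 4 = (3 : ℚ) • t7 ^ 2 - t7 - 1 := by
  rw [Algebra.smul_def, map_ofNat]
  linear_combination (t7 - 1) * t7_eq

theorem tr_t7_three : Algebra.trace ℚ K7 (t7 ^ 3) = -4 := by
  rw [t7_three, map_sub, map_add, map_smul, tr_one, tr_t7, tr_t7_two]
  norm_num

theorem tr_t7_four : Algebra.trace ℚ K7 (t7 ^ 4) = 13 := by
  rw [t7_four, map_sub, map_sub, map_smul, tr_one, tr_t7, tr_t7_two]
  norm_num

theorem isIntegral_t7 : IsIntegral ℤ t7 := by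
  refine ⟨X ^ 3 + X ^ 2 - 2 * X - 1, by monicity!, ?_⟩
  rw [← aeval_def]
  simp only [map_sub, map_add, map_mul, map_pow, map_one, map_ofNat, aeval_X]
  exact t7_eq

/-- the zero in the ring of integers -/
def T7 : 𝓞 K7 := ⟨t7, isIntegral_t7⟩

theorem coe_T7 : (T7 : K7) = t7 := rfl

theorem T7_eq : T7 ^ 3 + T7 ^ 2 - 2 * T7 - 1 = 0 := by
  apply RingOfIntegers.ext
  simp only [map_sub, map_add, map_mul, map_pow, map_one, map_ofNat, coe_T7, map_zero]
  exact t7_eq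

theorem discr_T7 : Algebra.discr ℤ (fun i : Fin 3 => T7 ^ (i : ℕ)) = 49 := by
  have h : ∀ n, ((Algebra.trace ℤ (𝓞 K7) (T7 ^ n) : ℤ) : ℚ) = Algebra.trace ℚ K7 (t7 ^ n) := by
    intro n
    rw [Algebra.coe_trace_int]
    simp only [map_pow, coe_T7]
  have h0 : Algebra.trace ℤ (𝓞 K7) (T7 ^ 0) = 3 := by
    have := h 0
    rw [pow_zero t7, tr_one] at this
    exact_mod_cast this
  have h1 : Algebra.trace ℤ (𝓞 K7) (T7 ^ 1) = -1 := by
    have := h 1
    rw [pow_one t7, tr_t7] at this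
    exact_mod_cast this
  have h2 : Algebra.trace ℤ (𝓞 K7) (T7 ^ 2) = 5 := by
    have := h 2
    rw [tr_t7_two] at this
    exact_mod_cast this
  have h3 : Algebra.trace ℤ (𝓞 K7) (T7 ^ 3) = -4 := by
    have := h 3
    rw [tr_t7_three] at this
    exact_mod_cast this
  have h4 : Algebra.trace ℤ (𝓞 K7) (T7 ^ 4) = 13 := by
    have := h 4
    rw [tr_t7_four] at this
    exact_mod_cast this
  rw [Algebra.discr_def, Matrix.det_fin_three]
  simp only [Algebra.traceMatrix_apply, Algebra.traceForm_apply, ← pow_add]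
  change Algebra.trace ℤ (𝓞 K7) (T7 ^ 0) * Algebra.trace ℤ (𝓞 K7) (T7 ^ 2) *
    Algebra.trace ℤ (𝓞 K7) (T7 ^ 4) - Algebra.trace ℤ (𝓞 K7) (T7 ^ 0) *
    Algebra.trace ℤ (𝓞 K7) (T7 ^ 3) * Algebra.trace ℤ (𝓞 K7) (T7 ^ 3) -
    Algebra.trace ℤ (𝓞 K7) (T7 ^ 1) * Algebra.trace ℤ (𝓞 K7) (T7 ^ 1) *
    Algebra.trace ℤ (𝓞 K7) (T7 ^ 4) + Algebra.trace ℤ (𝓞 K7) (T7 ^ 1) *
    Algebra.trace ℤ (𝓞 K7) (T7 ^ 3) * Algebra.trace ℤ (𝓞 K7) (T7 ^ 2) +
    Algebra.trace ℤ (𝓞 K7) (T7 ^ 2) * Algebra.trace ℤ (𝓞 K7) (T7 ^ 1) *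
    Algebra.trace ℤ (𝓞 K7) (T7 ^ 3) - Algebra.trace ℤ (𝓞 K7) (T7 ^ 2) *
    Algebra.trace ℤ (𝓞 K7) (T7 ^ 2) * Algebra.trace ℤ (𝓞 K7) (T7 ^ 2) = 49
  rw [h0, h1, h2, h3, h4]
  norm_num

theorem abs_discr_le : |discr K7| ≤ 49 := by
  have hb : Module.finrank ℤ (𝓞 K7) = 3 := by
    rw [RingOfIntegers.rank, finrank_K7]
  set B : Module.Basis (Fin 3) ℤ (𝓞 K7) := (Module.finBasisOfFinrankEq ℤ (𝓞 K7) hb) with hB
  have h1 : Algebra.discr ℤ (fun i : Fin 3 => T7 ^ (i : ℕ)) =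
      (B.toMatrix (fun i : Fin 3 => T7 ^ (i : ℕ))).det ^ 2 * Algebra.discr ℤ B := by
    rw [← Algebra.discr_of_matrix_vecMul]
    congr 1
    exact (B.toMatrix_map_vecMul _).symm
  rw [discr_T7, NumberField.discr_eq_discr] at h1
  set P := (B.toMatrix (fun i : Fin 3 => T7 ^ (i : ℕ))).det
  have hP : P ≠ 0 := by
    intro h
    rw [h] at h1
    norm_num at h1
  have h2 : 1 ≤ P ^ 2 := by
    have := sq_nonneg P
    have h3 : P ^ 2 ≠ 0 := pow_ne_zero 2 hP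
    omega
  rw [abs_le]
  constructor <;> nlinarith

end Pool.Agent.ZCQS
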