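import Pool.Agent.ZCQ.LinInd
import Pool.Agent.ZCQS.Mordell

/-!
# The descent for the twists of the curve `y² = x³ + x² - 2 x - 1`

`K` is the cyclic cubic field generated by the zeros of `x³ + x² - 2 x - 1`.
-/

set_option autoImplicit false

noncomputable section

namespace Pool.Agent.ZCQS

open WeierstrassCurve Pool.Agent.ZC Pool.Agent.ZCQ
open scoped Classical

/-- The curve `y² = x³ + d x² - 2 d² x - d³`. -/
def tw (d : ℚ) : WeierstrassCurve ℚ := ⟨0, d, 0, -2 * d ^ 2, -d ^ 3⟩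

/-- The facts about the cubic field which are used in the descent. -/
structure Cub7 (K : Type) [Field K] [Algebra ℚ K] where
  /-- an automorphism of order three -/
  σ : K →ₐ[ℚ] K
  σ3 : ∀ x, σ (σ (σ x)) = x
  fix : ∀ x, σ x = x → ∃ q : ℚ, algebraMap ℚ K q = x
  /-- the largest zero -/
  t : K
  sum : t + σ t + σ (σ t) = -1
  sum2 : t * σ t + t * σ (σ t) + σ t * σ (σ t) = -2
  prod : t * σ t * σ (σ t) = 1
  /-- an embedding in the real numbers -/
  ι : K →+* ℝ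
  lt12 : ι (σ t) < ι t
  lt23 : ι (σ (σ t)) < ι (σ t)
  /-- the units -/
  U : K → Prop
  one : U 1
  mul : ∀ v w, U v → U w → U (v * w)
  sq : ∀ v, U v → 0 < ι v → 0 < ι (σ v) → 0 < ι (σ (σ v)) → IsSquare v

section

variable {K : Type} [Field K] [Algebra ℚ K]

/-- The rational points as points over `K`. -/
theorem exists_upK (W : WeierstrassCurve ℚ) (σ : K →ₐ[ℚ] K)
    (hfix : ∀ x, σ x = x → ∃ q : ℚ, algebraMap ℚ K q = x) :
    ∃ f : W.toAffine.Point →+ (W⁄K).toAffine.Point, Function.Injective f ∧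
      (∀ x y h, ∃ h', f (.some x y h) = .some (algebraMap ℚ K x) (algebraMap ℚ K y) h') ∧
      (∀ P, Affine.Point.map (W' := W.toAffine) σ (f P) = f P) ∧
      ∀ S, Affine.Point.map (W' := W.toAffine) σ S = S → ∃ P, f P = S := by
  have key : ∀ W₁ : WeierstrassCurve ℚ, W₁ = W⁄ℚ →
      ∃ f : W₁.toAffine.Point →+ (W⁄K).toAffine.Point, Function.Injective f ∧
      (∀ x y h, ∃ h', f (.some x y h) = .some (algebraMap ℚ K x) (algebraMap ℚ K y) h') ∧
      (∀ P, Affine.Point.map (W' := W.toAffine) σ (f P) = f P) ∧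
      ∀ S, Affine.Point.map (W' := W.toAffine) σ S = S → ∃ P, f P = S := by
    rintro W₁ rfl
    refine ⟨Affine.Point.map (W' := W.toAffine) (Algebra.ofId ℚ K), Affine.Point.map_injective _,
      fun x y h => ⟨_, rfl⟩, fun P => ?_, fun S hS => ?_⟩
    · rcases P with _ | ⟨x, y, h⟩
      · rfl
      · exact (Affine.Point.some.injEq _ _ _ _ _ _).mpr ⟨σ.commutes x, σ.commutes y⟩
    · rcases S with _ | ⟨x, y, h⟩
      · exact ⟨0, rfl⟩
      · have h1 : σ x = x ∧ σ y = y := (Affine.Point.some.injEq _ _ _ _ _ _).mp hS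
        obtain ⟨a, rfl⟩ := hfix x h1.1
        obtain ⟨b, rfl⟩ := hfix y h1.2
        have h4 : (W⁄ℚ).toAffine.Nonsingular a b :=
          (Affine.baseChange_nonsingular W.toAffine (f := Algebra.ofId ℚ K)
            (algebraMap ℚ K).injective a b).1 h
        exact ⟨.some a b h4, rfl⟩
  refine key W ?_
  change W = W.map (algebraMap ℚ ℚ)
  rw [Algebra.algebraMap_self, WeierstrassCurve.map_id]


variable (D : Cub7 K) {d : ℚ}

namespace Cub7

theorem ne12 : D.t ≠ D.σ D.t := fun h => by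
  have h1 := D.lt12
  rw [← h] at h1
  exact lt_irrefl _ h1

theorem ne23 : D.σ D.t ≠ D.σ (D.σ D.t) := fun h => by
  have h1 := D.lt23
  rw [← h] at h1
  exact lt_irrefl _ h1

theorem ne13 : D.t ≠ D.σ (D.σ D.t) := fun h => by
  have h1 := D.lt23.trans D.lt12
  rw [← h] at h1
  exact lt_irrefl _ h1

theorem rts (hd : d ≠ 0) : Rts ((tw d)⁄K) (algebraMap ℚ K d * D.t)
    (algebraMap ℚ K d * D.σ D.t) (algebraMap ℚ K d * D.σ (D.σ D.t)) := by
  have hd' : algebraMap ℚ K d ≠ 0 := (map_ne_zero (algebraMap ℚ K)).2 hd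
  refine ⟨?_, ?_, ?_, ?_, ?_, fun h => D.ne12 (mul_left_cancel₀ hd' h),
    fun h => D.ne13 (mul_left_cancel₀ hd' h), fun h => D.ne23 (mul_left_cancel₀ hd' h)⟩
  · change algebraMap ℚ K 0 = 0
    exact map_zero _
  · change algebraMap ℚ K d = _
    linear_combination (algebraMap ℚ K d) * D.sum
  · change algebraMap ℚ K 0 = 0
    exact map_zero _
  · change algebraMap ℚ K (-2 * d ^ 2) = _
    rw [map_mul, map_neg, map_ofNat, map_pow]
    linear_combination (-(algebraMap ℚ K d) ^ 2) * D.sum2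
  · change algebraMap ℚ K (-d ^ 3) = _
    rw [map_neg, map_pow]
    linear_combination ((algebraMap ℚ K d) ^ 3) * D.prod

/-- the equation of the curve -/
theorem eqn {x y : ℚ} (h : (tw d).toAffine.Nonsingular x y) :
    y ^ 2 = x ^ 3 + d * x ^ 2 - 2 * d ^ 2 * x - d ^ 3 := by
  have h1 := (Affine.equation_iff ..).1 h.1
  simp only [tw] at h1
  linear_combination h1

theorem eqnK {x y : ℚ} (h : (tw d).toAffine.Nonsingular x y) :
    (algebraMap ℚ K y) ^ 2 = (algebraMap ℚ K x - algebraMap ℚ K d * D.t) *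
      (algebraMap ℚ K x - algebraMap ℚ K d * D.σ D.t) *
      (algebraMap ℚ K x - algebraMap ℚ K d * D.σ (D.σ D.t)) := by
  have h1 := congrArg (algebraMap ℚ K) (eqn h)
  simp only [map_pow, map_add, map_sub, map_mul, map_ofNat] at h1
  rw [h1]
  linear_combination ((algebraMap ℚ K d) * (algebraMap ℚ K x) ^ 2) * D.sum -
    ((algebraMap ℚ K d) ^ 2 * (algebraMap ℚ K x)) * D.sum2 +
    ((algebraMap ℚ K d) ^ 3) * D.prod

/-- There are no points of order two. -/
theorem ne_t (hd : d ≠ 0) (x : ℚ) : algebraMap ℚ K x ≠ algebraMap ℚ K d * D.t := by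
  intro h
  have hd' : algebraMap ℚ K d ≠ 0 := (map_ne_zero (algebraMap ℚ K)).2 hd
  have h1 := congrArg D.σ h
  rw [map_mul, AlgHom.commutes, AlgHom.commutes, h] at h1
  exact D.ne12 (mul_left_cancel₀ hd' h1)

/-- The hypothesis of the descent: the numbers `x - d t` are units times squares. -/
def Key (d : ℚ) : Prop :=
  ∀ x y : ℚ, (tw d).toAffine.Nonsingular x y → ∃ v β : K, D.U v ∧ β ≠ 0 ∧
    algebraMap ℚ K x - algebraMap ℚ K d * D.t = v * β ^ 2

/-- The real numbers `x - d t`, `x - d σ t`, `x - d σ² t`. -/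
def re (d x : ℚ) : Fin 3 → ℝ :=
  ![(x : ℝ) - d * D.ι D.t, x - d * D.ι (D.σ D.t), x - d * D.ι (D.σ (D.σ D.t))]

theorem ι_sub (d x : ℚ) (s : K) :
    D.ι (algebraMap ℚ K x - algebraMap ℚ K d * s) = (x : ℝ) - d * D.ι s := by
  have h : ∀ q : ℚ, D.ι (algebraMap ℚ K q) = (q : ℝ) := fun q => by
    have h1 : D.ι.comp (algebraMap ℚ K) = algebraMap ℚ ℝ := Subsingleton.elim _ _
    exact congrArg (fun g : ℚ →+* ℝ => g q) h1
  rw [map_sub, map_mul, h, h]

/-- A point whose classes are those of a totally positive unit is twice a rational point. -/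
theorem half (hd : d ≠ 0) (f : (tw d).toAffine.Point →+ ((tw d)⁄K).toAffine.Point)
    (hf : Function.Injective f)
    (hfix : ∀ P, Affine.Point.map (W' := (tw d).toAffine) D.σ (f P) = f P)
    (hdesc : ∀ S, Affine.Point.map (W' := (tw d).toAffine) D.σ S = S → ∃ P, f P = S)
    (P : (tw d).toAffine.Point) {v : K} (hv : v ≠ 0) (hU : D.U v) (h0 : 0 < D.ι v)
    (h1 : 0 < D.ι (D.σ v)) (h2 : 0 < D.ι (D.σ (D.σ v)))
    (e1 : dl (algebraMap ℚ K d * D.t) (algebraMap ℚ K d * D.σ D.t)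
      (algebraMap ℚ K d * D.σ (D.σ D.t)) (f P) = cl v)
    (e2 : dl (algebraMap ℚ K d * D.σ D.t) (algebraMap ℚ K d * D.t)
      (algebraMap ℚ K d * D.σ (D.σ D.t)) (f P) = cl (D.σ v)) : ∃ R, P = R + R := by
  have hsq := D.sq v hU h0 h1 h2
  have hσv : D.σ v ≠ 0 := (map_ne_zero D.σ).2 hv
  have hsq2 : IsSquare (D.σ v) := by
    obtain ⟨r, hr⟩ := hsq
    exact ⟨D.σ r, by rw [hr, map_mul]⟩
  have : NeZero (2 : K) := ⟨by
    have h3 : algebraMap ℚ K 2 ≠ 0 := (map_ne_zero (algebraMap ℚ K)).2 two_ne_zero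
    rwa [map_ofNat] at h3⟩
  rw [(cl_eq_zero hv).2 hsq] at e1
  rw [(cl_eq_zero hσv).2 hsq2] at e2
  obtain ⟨R, hR⟩ := exists_half (D.rts hd) (f P) e1 e2
  set s : ((tw d)⁄K).toAffine.Point →+ ((tw d)⁄K).toAffine.Point :=
    Affine.Point.map (W' := (tw d).toAffine) D.σ with hs
  have hs3 : ∀ S, s (s (s S)) = S := by
    intro S
    rcases S with _ | ⟨x, y, h⟩
    · rfl
    · exact (Affine.Point.some.injEq _ _ _ _ _ _).mpr ⟨D.σ3 x, D.σ3 y⟩
  obtain ⟨T, hT⟩ := hdesc (R + s R + s (s R)) (by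
    change s (R + s R + s (s R)) = _
    rw [map_add, map_add, hs3]
    abel)
  refine ⟨T - P, hf ?_⟩
  have h5 : s R + s R = f P := by
    rw [← map_add, ← hR]
    exact hfix P
  have h6 : s (s R) + s (s R) = f P := by
    rw [← map_add, h5]
    exact hfix P
  have h7 : f T + f T = f P + f P + f P := by
    rw [hT]
    calc R + s R + s (s R) + (R + s R + s (s R)) =
        (R + R) + (s R + s R) + (s (s R) + s (s R)) := by abel
      _ = _ := by rw [h5, h6, ← hR]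
  rw [map_add, map_sub]
  calc f P = (f P + f P + f P) - f P - f P := by abel
    _ = (f T + f T) - f P - f P := by rw [h7]
    _ = _ := by abel

/-- The point `(x, y)` with `x < d σ t`. -/
def Neg (d : ℚ) : (tw d).toAffine.Point → Prop
  | 0 => False
  | .some x _ _ => (x : ℝ) < d * D.ι (D.σ D.t)

/-- the classes of a rational point -/
theorem classes (hd : d ≠ 0) (hkey : D.Key d)
    (f : (tw d).toAffine.Point →+ ((tw d)⁄K).toAffine.Point)
    (hf : ∀ x y h, ∃ h', f (.some x y h) = .some (algebraMap ℚ K x) (algebraMap ℚ K y) h')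
    (P : (tw d).toAffine.Point) : ∃ v : K, v ≠ 0 ∧ D.U v ∧
      dl (algebraMap ℚ K d * D.t) (algebraMap ℚ K d * D.σ D.t)
        (algebraMap ℚ K d * D.σ (D.σ D.t)) (f P) = cl v ∧
      dl (algebraMap ℚ K d * D.σ D.t) (algebraMap ℚ K d * D.t)
        (algebraMap ℚ K d * D.σ (D.σ D.t)) (f P) = cl (D.σ v) ∧
      (¬ D.Neg d P → 0 < D.ι v ∧ 0 < D.ι (D.σ v) ∧ 0 < D.ι (D.σ (D.σ v))) ∧
      (D.Neg d P → 0 < d → D.ι v < 0 ∧ D.ι (D.σ v) < 0 ∧ 0 < D.ι (D.σ (D.σ v))) ∧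
      (D.Neg d P → d < 0 → 0 < D.ι v ∧ D.ι (D.σ v) < 0 ∧ D.ι (D.σ (D.σ v)) < 0) := by
  have : NeZero (2 : K) := ⟨by
    have h3 : algebraMap ℚ K 2 ≠ 0 := (map_ne_zero (algebraMap ℚ K)).2 two_ne_zero
    rwa [map_ofNat] at h3⟩
  rcases P with _ | ⟨x, y, h⟩
  · refine ⟨1, one_ne_zero, D.one, ?_, ?_, fun _ => ?_, fun h => h.elim, fun h => h.elim⟩
    · rw [cl_one]
      change dl _ _ _ (f 0) = 0
      rw [map_zero]
      rfl
    · rw [map_one, cl_one]
      change dl _ _ _ (f 0) = 0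
      rw [map_zero]
      rfl
    · simp only [map_one]
      exact ⟨one_pos, one_pos, one_pos⟩
  · obtain ⟨v, β, hU, hβ, hv⟩ := hkey x y h
    obtain ⟨h', hf'⟩ := hf x y h
    have hx1 : algebraMap ℚ K x - algebraMap ℚ K d * D.t ≠ 0 := sub_ne_zero.2 (D.ne_t hd x)
    have hv2 : algebraMap ℚ K x - algebraMap ℚ K d * D.σ D.t = D.σ v * D.σ β ^ 2 := by
      have h1 := congrArg D.σ hv
      rwa [map_sub, map_mul, AlgHom.commutes, AlgHom.commutes, map_mul, map_pow] at h1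
    have hv3 : algebraMap ℚ K x - algebraMap ℚ K d * D.σ (D.σ D.t) =
        D.σ (D.σ v) * D.σ (D.σ β) ^ 2 := by
      have h1 := congrArg D.σ hv2
      rwa [map_sub, map_mul, AlgHom.commutes, AlgHom.commutes, map_mul, map_pow] at h1
    have hv0 : v ≠ 0 := by
      rintro rfl
      rw [zero_mul] at hv
      exact hx1 hv
    have hσv : D.σ v ≠ 0 := (map_ne_zero D.σ).2 hv0
    have hσβ : D.σ β ≠ 0 := (map_ne_zero D.σ).2 hβ
    have hσσβ : D.σ (D.σ β) ≠ 0 := (map_ne_zero D.σ).2 hσβ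
    have hx2 : algebraMap ℚ K x - algebraMap ℚ K d * D.σ D.t ≠ 0 := by
      rw [hv2]
      exact mul_ne_zero hσv (pow_ne_zero 2 hσβ)
    -- the signs
    have r1 : (x : ℝ) - d * D.ι D.t = D.ι v * D.ι β ^ 2 := by
      rw [← D.ι_sub, hv, map_mul, map_pow]
    have r2 : (x : ℝ) - d * D.ι (D.σ D.t) = D.ι (D.σ v) * D.ι (D.σ β) ^ 2 := by
      rw [← D.ι_sub, hv2, map_mul, map_pow]
    have r3 : (x : ℝ) - d * D.ι (D.σ (D.σ D.t)) =
        D.ι (D.σ (D.σ v)) * D.ι (D.σ (D.σ β)) ^ 2 := by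
      rw [← D.ι_sub, hv3, map_mul, map_pow]
    have p1 : 0 < D.ι β ^ 2 := by
      have := (map_ne_zero D.ι).2 hβ
      positivity
    have p2 : 0 < D.ι (D.σ β) ^ 2 := by
      have := (map_ne_zero D.ι).2 hσβ
      positivity
    have p3 : 0 < D.ι (D.σ (D.σ β)) ^ 2 := by
      have := (map_ne_zero D.ι).2 hσσβ
      positivity
    have hy : ((x : ℝ) - d * D.ι D.t) * ((x : ℝ) - d * D.ι (D.σ D.t)) *
        ((x : ℝ) - d * D.ι (D.σ (D.σ D.t))) = (y : ℝ) ^ 2 := by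
      rw [← D.ι_sub, ← D.ι_sub, ← D.ι_sub, ← map_mul, ← map_mul, ← D.eqnK h, map_pow]
      have h1 : D.ι.comp (algebraMap ℚ K) = algebraMap ℚ ℝ := Subsingleton.elim _ _
      have h2 : D.ι (algebraMap ℚ K y) = (y : ℝ) := congrArg (fun g : ℚ →+* ℝ => g y) h1
      rw [h2]
    have hprod : 0 < ((x : ℝ) - d * D.ι D.t) * ((x : ℝ) - d * D.ι (D.σ D.t)) *
        ((x : ℝ) - d * D.ι (D.σ (D.σ D.t))) := by
      rw [hy]
      refine lt_of_le_of_ne (sq_nonneg _) fun h0 => ?_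
      rw [← hy, r1, r2, r3] at h0
      have n1 := (map_ne_zero D.ι).2 hv0
      have n2 := (map_ne_zero D.ι).2 hσv
      have n3 := (map_ne_zero D.ι).2 ((map_ne_zero D.σ).2 hσv)
      exact (mul_ne_zero (mul_ne_zero (mul_ne_zero n1 p1.ne') (mul_ne_zero n2 p2.ne'))
        (mul_ne_zero n3 p3.ne')) h0.symm
    have q : ∀ {a u p : ℝ}, a = u * p → 0 < p → (0 < a → 0 < u) ∧ (a < 0 → u < 0) := by
      intro a u p ha hp
      rw [ha]
      exact ⟨fun h => pos_of_mul_pos_left h hp.le, fun h => neg_of_mul_neg_left h hp.le⟩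
    refine ⟨v, hv0, hU, ?_, ?_, ?_, ?_, ?_⟩
    · rw [hf']
      change (if algebraMap ℚ K x = _ then _ else _) = _
      rw [if_neg (sub_ne_zero.1 hx1), hv, cl_mul hv0 (pow_ne_zero 2 hβ), cl_sq, add_zero]
    · rw [hf']
      change (if algebraMap ℚ K x = _ then _ else _) = _
      rw [if_neg (sub_ne_zero.1 hx2), hv2, cl_mul hσv (pow_ne_zero 2 hσβ), cl_sq, add_zero]
    · intro hN
      have h2 : 0 ≤ (x : ℝ) - d * D.ι (D.σ D.t) := by
        have h3 : ¬ (x : ℝ) < d * D.ι (D.σ D.t) := hN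
        linarith
      have h2' : 0 < (x : ℝ) - d * D.ι (D.σ D.t) :=
        lt_of_le_of_ne h2 fun h0 => by
          rw [← h0, mul_zero, zero_mul] at hprod
          exact lt_irrefl _ hprod
      rcases lt_or_gt_of_ne hd with hd' | hd'
      · have hdr : (d : ℝ) < 0 := by exact_mod_cast hd'
        have h1 : 0 < (x : ℝ) - d * D.ι D.t := by nlinarith [D.lt12]
        have h3 : 0 < (x : ℝ) - d * D.ι (D.σ (D.σ D.t)) :=
          pos_of_mul_pos_right hprod (mul_pos h1 h2').le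
        exact ⟨(q r1 p1).1 h1, (q r2 p2).1 h2', (q r3 p3).1 h3⟩
      · have hdr : (0 : ℝ) < d := by exact_mod_cast hd'
        have h3 : 0 < (x : ℝ) - d * D.ι (D.σ (D.σ D.t)) := by nlinarith [D.lt23]
        have h1 : 0 < (x : ℝ) - d * D.ι D.t := by
          have h4 : 0 < (x : ℝ) - d * D.ι D.t := by
            by_contra h5
            have h6 : ((x : ℝ) - d * D.ι D.t) * ((x : ℝ) - d * D.ι (D.σ D.t)) ≤ 0 :=
              mul_nonpos_of_nonpos_of_nonneg (not_lt.1 h5) h2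
            exact absurd hprod (not_lt.2 (mul_nonpos_of_nonpos_of_nonneg h6 h3.le))
          exact h4
        exact ⟨(q r1 p1).1 h1, (q r2 p2).1 h2', (q r3 p3).1 h3⟩
    · intro hN hd'
      have h2 : (x : ℝ) - d * D.ι (D.σ D.t) < 0 := by
        have h3 : (x : ℝ) < d * D.ι (D.σ D.t) := hN
        linarith
      have hdr : (0 : ℝ) < d := by exact_mod_cast hd'
      have h1 : (x : ℝ) - d * D.ι D.t < 0 := by nlinarith [D.lt12]
      have h3 : 0 < (x : ℝ) - d * D.ι (D.σ (D.σ D.t)) :=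
        pos_of_mul_pos_right hprod (mul_pos_of_neg_of_neg h1 h2).le
      exact ⟨(q r1 p1).2 h1, (q r2 p2).2 h2, (q r3 p3).1 h3⟩
    · intro hN hd'
      have h2 : (x : ℝ) - d * D.ι (D.σ D.t) < 0 := by
        have h3 : (x : ℝ) < d * D.ι (D.σ D.t) := hN
        linarith
      have hdr : (d : ℝ) < 0 := by exact_mod_cast hd'
      have h3 : (x : ℝ) - d * D.ι (D.σ (D.σ D.t)) < 0 := by nlinarith [D.lt23]
      have h1 : 0 < (x : ℝ) - d * D.ι D.t := by
        rw [mul_assoc] at hprod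
        exact pos_of_mul_pos_left hprod (mul_pos_of_neg_of_neg h2 h3).le
      exact ⟨(q r1 p1).1 h1, (q r2 p2).2 h2, (q r3 p3).2 h3⟩

theorem tw_isElliptic (hd : d ≠ 0) : (tw d).IsElliptic := by
  refine ⟨?_⟩
  have h : (tw d).Δ = 784 * d ^ 6 := by
    simp only [tw, WeierstrassCurve.Δ, WeierstrassCurve.b₂, WeierstrassCurve.b₄,
      WeierstrassCurve.b₆, WeierstrassCurve.b₈]
    ring
  rw [h]
  exact isUnit_iff_ne_zero.2 (mul_ne_zero (by norm_num) (pow_ne_zero 6 hd))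

/-- Any two rational points of the twist are dependent. -/
theorem dep (hd : d ≠ 0) (hkey : D.Key d) (P Q : (tw d).toAffine.Point) :
    ∃ a b : ℤ, (a ≠ 0 ∨ b ≠ 0) ∧ a • P + b • Q = 0 := by
  obtain ⟨f, hf1, hf2, hf3, hf4⟩ := exists_upK (tw d) D.σ D.fix
  have : NeZero (2 : K) := ⟨by
    have h3 : algebraMap ℚ K 2 ≠ 0 := (map_ne_zero (algebraMap ℚ K)).2 two_ne_zero
    rwa [map_ofNat] at h3⟩
  have hpos : ∀ P, ¬ D.Neg d P → ∃ R, P = R + R := by
    intro P hP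
    obtain ⟨v, hv, hU, e1, e2, h1, -, -⟩ := D.classes hd hkey f hf2 P
    exact D.half hd f hf1 hf3 hf4 P hv hU (h1 hP).1 (h1 hP).2.1 (h1 hP).2.2 e1 e2
  have hneg : ∀ P Q, D.Neg d P → D.Neg d Q → ∃ R, P + Q = R + R := by
    intro P Q hP hQ
    obtain ⟨v, hv, hU, e1, e2, -, h1, h2⟩ := D.classes hd hkey f hf2 P
    obtain ⟨v', hv', hU', e1', e2', -, h1', h2'⟩ := D.classes hd hkey f hf2 Q
    have hs : 0 < D.ι (v * v') ∧ 0 < D.ι (D.σ (v * v')) ∧ 0 < D.ι (D.σ (D.σ (v * v'))) := by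
      simp only [map_mul]
      rcases lt_or_gt_of_ne hd with hd' | hd'
      · obtain ⟨a1, a2, a3⟩ := h2 hP hd'
        obtain ⟨b1, b2, b3⟩ := h2' hQ hd'
        exact ⟨mul_pos a1 b1, mul_pos_of_neg_of_neg a2 b2, mul_pos_of_neg_of_neg a3 b3⟩
      · obtain ⟨a1, a2, a3⟩ := h1 hP hd'
        obtain ⟨b1, b2, b3⟩ := h1' hQ hd'
        exact ⟨mul_pos_of_neg_of_neg a1 b1, mul_pos_of_neg_of_neg a2 b2, mul_pos a3 b3⟩
    refine D.half hd f hf1 hf3 hf4 (P + Q) (mul_ne_zero hv hv') (D.mul v v' hU hU') hs.1 hs.2.1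
      hs.2.2 ?_ ?_
    · rw [map_add, dl_add (D.rts hd), e1, e1', cl_mul hv hv']
    · rw [map_add, dl_add (D.rts hd).swap12, e2, e2', map_mul,
        cl_mul ((map_ne_zero D.σ).2 hv) ((map_ne_zero D.σ).2 hv')]
  -- one generator modulo two
  obtain ⟨P₀, hP₀⟩ : ∃ P₀ : (tw d).toAffine.Point, ∀ x : (tw d).toAffine.Point,
      (∃ y, x = y + y) ∨ ∃ y, x = -P₀ + (y + y) := by
    by_cases hN : ∃ P₀, D.Neg d P₀
    · obtain ⟨P₀, h0⟩ := hN
      refine ⟨P₀, fun x => ?_⟩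
      by_cases hx : D.Neg d x
      · obtain ⟨R, hR⟩ := hneg P₀ x h0 hx
        refine Or.inr ⟨R, ?_⟩
        rw [← hR]
        abel
      · exact Or.inl (hpos x hx)
    · exact ⟨0, fun x => Or.inl (hpos x fun h => hN ⟨x, h⟩)⟩
  have hfi : (nsmulAddMonoidHom (α := (tw d).toAffine.Point) 2).range.FiniteIndex := by
    have : Finite ((tw d).toAffine.Point ⧸
        (nsmulAddMonoidHom (α := (tw d).toAffine.Point) 2).range) := by
      refine Finite.of_surjective (fun b : Bool => bif b then 0 else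
        QuotientAddGroup.mk (-P₀)) fun c => ?_
      obtain ⟨x, rfl⟩ := QuotientAddGroup.mk_surjective c
      rcases hP₀ x with ⟨y, rfl⟩ | ⟨y, rfl⟩
      · have h9 : y + y ∈ (nsmulAddMonoidHom (α := (tw d).toAffine.Point) 2).range :=
          ⟨y, two_nsmul y⟩
        exact ⟨true, ((QuotientAddGroup.eq_zero_iff _).2 h9).symm⟩
      · refine ⟨false, ?_⟩
        refine QuotientAddGroup.eq.2 ⟨y, ?_⟩
        change 2 • y = _
        rw [two_nsmul]
        abel
    exact AddSubgroup.finiteIndex_of_finite_quotient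
  have hfg := fg_of_index (W := tw d) rfl rfl (tw_isElliptic hd) hfi
  obtain ⟨M, hM, h1⟩ := exists_mul_mem (AddSubgroup.closure {P₀}) fun x => by
    rcases hP₀ x with ⟨y, rfl⟩ | ⟨y, rfl⟩
    · exact ⟨0, AddSubgroup.zero_mem _, y, (zero_add _).symm⟩
    · exact ⟨-P₀, AddSubgroup.neg_mem _ (AddSubgroup.subset_closure rfl), y, rfl⟩
  obtain ⟨a, ha⟩ := AddSubgroup.mem_closure_singleton.1 (h1 P)
  obtain ⟨b, hb⟩ := AddSubgroup.mem_closure_singleton.1 (h1 Q)
  by_cases hb0 : b = 0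
  · refine ⟨0, M, Or.inr (by exact_mod_cast hM.ne'), ?_⟩
    rw [zero_zsmul, zero_add, natCast_zsmul, ← hb, hb0, zero_zsmul]
  · refine ⟨b * M, -(a * M), Or.inl (mul_ne_zero hb0 (by exact_mod_cast hM.ne')), ?_⟩
    rw [neg_zsmul, mul_zsmul, mul_zsmul, natCast_zsmul, natCast_zsmul, ← ha, ← hb, ← mul_zsmul,
      ← mul_zsmul, mul_comm b a, add_neg_cancel]

end Cub7

end

end Pool.Agent.ZCQS
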