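import Mathlib

set_option autoImplicit false

namespace Pool.Agent.ZCQS

/-- The polynomial `X³ + X² - 2 X - 1` has no zero modulo a prime `p` with
`p ≢ 0, ± 1 (mod 7)`. -/
theorem no_root {p : ℕ} (hp : p.Prime) (h0 : p % 7 ≠ 0) (h1 : p % 7 ≠ 1) (h6 : p % 7 ≠ 6)
    (r : ZMod p) : r ^ 3 + r ^ 2 - 2 * r - 1 ≠ 0 := by
  intro hr
  have : Fact p.Prime := ⟨hp⟩
  set Ω := AlgebraicClosure (ZMod p)
  have : CharP Ω p := charP_of_injective_algebraMap (algebraMap (ZMod p) Ω).injective p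
  set s : Ω := algebraMap (ZMod p) Ω r with hs
  have hs0 : s ^ 3 + s ^ 2 - 2 * s - 1 = 0 := by
    have h := congrArg (algebraMap (ZMod p) Ω) hr
    simp only [map_sub, map_add, map_mul, map_pow, map_one, map_zero, map_ofNat] at h
    exact h
  have hsp : s ^ p = s := by
    rw [hs, ← map_pow, ZMod.pow_card]
  obtain ⟨z, hz⟩ : ∃ z : Ω, z ^ 2 - s * z + 1 = 0 := by
    obtain ⟨z, hz⟩ := IsAlgClosed.exists_root (Polynomial.X ^ 2 - Polynomial.C s * Polynomial.X + 1 :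
      Polynomial Ω) (by
        have : (Polynomial.X ^ 2 - Polynomial.C s * Polynomial.X + 1 : Polynomial Ω).degree = 2 := by
          compute_degree!
        rw [this]
        norm_num)
    refine ⟨z, ?_⟩
    simpa using hz
  have hz0 : z ≠ 0 := by
    rintro rfl
    simp at hz
  have h7 : z ^ 7 = 1 := by
    have h2 : z * s = z ^ 2 + 1 := by linear_combination -hz
    have h3 : z ^ 6 + z ^ 5 + z ^ 4 + z ^ 3 + z ^ 2 + z + 1 = 0 := by
      have h4 : (z * s) ^ 3 + z * (z * s) ^ 2 - 2 * z ^ 2 * (z * s) - z ^ 3 = 0 := by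
        linear_combination z ^ 3 * hs0
      rw [h2] at h4
      linear_combination h4
    linear_combination (z - 1) * h3
  have hz1 : z ≠ 1 := by
    rintro rfl
    have h2 : s = 2 := by linear_combination -hz
    rw [h2] at hs0
    have h3 : ((7 : ℕ) : Ω) = 0 := by
      push_cast
      linear_combination hs0
    rw [CharP.cast_eq_zero_iff Ω p] at h3
    have h4 := (Nat.prime_dvd_prime_iff_eq hp (by norm_num)).1 h3
    subst h4
    exact h0 rfl
  have : Fact (Nat.Prime 7) := ⟨by norm_num⟩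
  have hord : orderOf z = 7 := orderOf_eq_prime h7 hz1
  have hzp : (z ^ p) ^ 2 - s * z ^ p + 1 = 0 := by
    have h := congrArg (frobenius Ω p) hz
    simp only [map_add, map_sub, map_mul, map_pow, frobenius_def, hsp, map_one, map_zero] at h
    exact h
  have hprod : (z ^ p - z) * (z ^ p * z - 1) = 0 := by
    have h2 : z * s = z ^ 2 + 1 := by linear_combination -hz
    linear_combination z * hzp - (z ^ p) * hz
  rcases mul_eq_zero.1 hprod with h | h
  · have hp1 := hp.one_lt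
    have h2 : z ^ (p - 1) = 1 := by
      apply mul_right_cancel₀ hz0
      rw [← pow_succ, Nat.sub_add_cancel hp1.le, one_mul]
      exact sub_eq_zero.1 h
    have h3 := orderOf_dvd_of_pow_eq_one h2
    rw [hord] at h3
    omega
  · have h2 : z ^ (p + 1) = 1 := by rw [pow_succ]; exact sub_eq_zero.1 h
    have h3 := orderOf_dvd_of_pow_eq_one h2
    rw [hord] at h3
    omega

/-- The value of the form `m³ + m² n - 2 m n² - n³`. -/
def G (m n : ℤ) : ℤ := m ^ 3 + m ^ 2 * n - 2 * m * n ^ 2 - n ^ 3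

/-- A nonzero integer whose primes are not `0, ± 1` modulo seven. -/
def Silent (d : ℤ) : Prop :=
  d ≠ 0 ∧ ∀ p : ℕ, p.Prime → (p : ℤ) ∣ d → p % 7 ≠ 0 ∧ p % 7 ≠ 1 ∧ p % 7 ≠ 6

theorem coprime_G {d m n : ℤ} (hd : Silent d) (hmn : IsCoprime m n) : IsCoprime (d * n) (G m n) := by
  refine IsCoprime.mul_left ?_ ?_
  · rw [Int.isCoprime_iff_gcd_eq_one]
    by_contra h
    obtain ⟨p, hp, hpd⟩ := Nat.exists_prime_and_dvd h
    have h1 : (p : ℤ) ∣ d := (Int.natCast_dvd_natCast.2 hpd).trans (Int.gcd_dvd_left ..)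
    have h2 : (p : ℤ) ∣ G m n := (Int.natCast_dvd_natCast.2 hpd).trans (Int.gcd_dvd_right ..)
    obtain ⟨q0, q1, q6⟩ := hd.2 p hp h1
    have : Fact p.Prime := ⟨hp⟩
    have h3 : ((G m n : ℤ) : ZMod p) = 0 := (ZMod.intCast_zmod_eq_zero_iff_dvd _ _).2 h2
    unfold G at h3
    push_cast at h3
    by_cases hn : (n : ZMod p) = 0
    · rw [hn] at h3
      have h4 : (m : ZMod p) ^ 3 = 0 := by linear_combination h3
      have h5 : (m : ZMod p) = 0 := pow_eq_zero_iff (by norm_num) |>.1 h4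
      have h6 : (p : ℤ) ∣ m := (ZMod.intCast_zmod_eq_zero_iff_dvd _ _).1 h5
      have h7 : (p : ℤ) ∣ n := (ZMod.intCast_zmod_eq_zero_iff_dvd _ _).1 hn
      have h8 := hmn.isUnit_of_dvd' h6 h7
      exact hp.one_lt.ne' (by simpa [Int.isUnit_iff, Int.natAbs_natCast] using Int.isUnit_iff_natAbs_eq.1 h8)
    · refine no_root hp q0 q1 q6 ((m : ZMod p) / n) ?_
      field_simp
      linear_combination h3
  · obtain ⟨a, b, hab⟩ := IsCoprime.pow_left (m := 3) hmn
    refine ⟨b - a * (m ^ 2 - 2 * m * n - n ^ 2), a, ?_⟩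
    unfold G
    linear_combination hab

theorem squares {d m n t : ℤ} (hd : Silent d) (hmn : IsCoprime m n) (ht : d * n * G m n = t ^ 2) :
    (∃ a : ℤ, d * n = a ^ 2 ∨ d * n = -a ^ 2) ∧ ∃ g : ℤ, G m n = g ^ 2 ∨ G m n = -g ^ 2 := by
  have h := coprime_G hd hmn
  constructor
  · exact Int.sq_of_gcd_eq_one (Int.isCoprime_iff_gcd_eq_one.1 h) ht
  · refine Int.sq_of_gcd_eq_one (b := d * n) (c := t) (Int.isCoprime_iff_gcd_eq_one.1 h.symm) ?_
    rw [← ht]
    ring

theorem not_seven_dvd {m n g : ℤ} (hmn : IsCoprime m n) (h : G m n = g ^ 2 ∨ G m n = -g ^ 2) :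
    ¬ (7 : ℤ) ∣ G m n := by
  intro h7
  have p7 : Prime (7 : ℤ) := by norm_num
  have h1 : (7 : ℤ) ∣ g := by
    rcases h with h | h
    · rw [h] at h7
      exact p7.dvd_of_dvd_pow h7
    · rw [h, dvd_neg] at h7
      exact p7.dvd_of_dvd_pow h7
  have h2 : (7 : ℤ) ^ 2 ∣ G m n := by
    rcases h with h | h
    · rw [h]
      exact pow_dvd_pow_of_dvd h1 2
    · rw [h, dvd_neg]
      exact pow_dvd_pow_of_dvd h1 2
  have h3 : (7 : ℤ) ∣ m - 2 * n := by
    refine p7.dvd_of_dvd_pow (n := 3) ?_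
    have h4 : (m - 2 * n) ^ 3 = G m n - 7 * (m ^ 2 * n - 2 * m * n ^ 2 + n ^ 3) := by
      unfold G
      ring
    rw [h4]
    exact dvd_sub h7 (dvd_mul_right _ _)
  obtain ⟨k, hk⟩ := h3
  have hm : m = 2 * n + 7 * k := by linarith
  have h5 : (7 : ℤ) ∣ n := by
    refine p7.dvd_of_dvd_pow (n := 3) ?_
    obtain ⟨c, hc⟩ := h2
    refine ⟨c - 2 * n ^ 2 * k - 7 * n * k ^ 2 - 7 * k ^ 3, ?_⟩
    have h6 : (7 : ℤ) * n ^ 3 = 7 * (7 * (c - 2 * n ^ 2 * k - 7 * n * k ^ 2 - 7 * k ^ 3)) := by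
      rw [hm] at hc
      unfold G at hc
      linear_combination hc
    linarith
  have h6 : (7 : ℤ) ∣ m := by
    rw [hm]
    exact dvd_add (h5.mul_left 2) (dvd_mul_right _ _)
  have h8 := hmn.isUnit_of_dvd' h6 h5
  rw [Int.isUnit_iff] at h8
  omega

end Pool.Agent.ZCQS
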