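import Pool.Agent.ZCQS.Units7
import Pool.Agent.ZCQS.Prime7
import Pool.Agent.ZCQS.Desc

/-!
# The twists of `y² = x³ + x² - 2 x - 1` by silent numbers have rank at most one
-/

set_option autoImplicit false

noncomputable section

namespace Pool.Agent.ZCQS

open Polynomial IntermediateField NumberField

/-- the cubic field as a structure -/
def cub7 : Cub7 K7 where
  σ := s7
  σ3 := s7_cube
  fix := s7_fix
  t := t7
  sum := by
    rw [s7_s7_t7, s7_t7]
    linear_combination (t7 - 1) * t7_eq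
  sum2 := by
    rw [s7_s7_t7, s7_t7]
    linear_combination (t7 ^ 3 - 4 * t7 + 2) * t7_eq
  prod := by
    rw [s7_s7_t7, s7_t7]
    linear_combination (t7 ^ 4 - t7 ^ 3 - 3 * t7 ^ 2 + 2 * t7 + 1) * t7_eq
  ι := i7
  lt12 := by
    rw [i7_s7_t7, i7_t7]
    linarith [bd2.2, th_gt]
  lt23 := by
    rw [i7_s7_s7_t7, i7_s7_t7]
    linarith [bd2.1, bd3]
  U := fun x => ∃ u : (𝓞 K7)ˣ, ku u = x
  one := ⟨1, map_one ku⟩
  mul := by
    rintro _ _ ⟨u, rfl⟩ ⟨v, rfl⟩
    exact ⟨u * v, map_mul ku u v⟩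
  sq := by
    rintro _ ⟨u, rfl⟩ h0 h1 h2
    obtain ⟨w, rfl⟩ := sq_of_pos u (by
      intro i
      fin_cases i
      · exact h0
      · exact h1
      · exact h2)
    exact ⟨ku w, map_mul ku w w⟩

theorem cop_aux {R : Type*} [CommRing R] {m n a b w r s u v g y : R}
    (h : (m - n * a) * ((m - n * b) * y) = g) (hrs : r * m + s * n = 1)
    (huv : u * g + v * 7 = 1) (hw : (a - b) * w = 7) : IsCoprime (m - n * a) (m - n * b) := by
  refine ⟨(m - n * b) * y * u + v * w * (-r * b - s), v * w * (r * a + s), ?_⟩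
  linear_combination u * h + v * w * (a - b) * hrs + v * hw + huv

/-- `x - d t` is a unit times a square. -/
theorem key7 {d : ℤ} (hd : Silent d) : cub7.Key (d : ℚ) := by
  intro x y hxy
  have hd0 : (d : ℚ) ≠ 0 := by exact_mod_cast hd.1
  have heq := Cub7.eqn hxy
  -- the fraction
  set q : ℚ := x / d with hq
  set m : ℤ := q.num with hm
  set n : ℤ := (q.den : ℤ) with hn
  have hn0 : n ≠ 0 := by
    rw [hn]
    exact_mod_cast q.den_ne_zero
  have hnq : (n : ℚ) ≠ 0 := by exact_mod_cast hn0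
  have hmn : IsCoprime m n := by
    rw [hn, Int.isCoprime_iff_nat_coprime]
    exact q.reduced
  have hx : x * n = d * m := by
    have h1 : (m : ℚ) / n = q := by
      rw [hm, hn]
      exact_mod_cast Rat.num_div_den q
    have h2 : q * d = x := by
      rw [hq]
      field_simp
    rw [← h2, ← h1]
    field_simp
  -- the square
  obtain ⟨t, ht⟩ : ∃ t : ℤ, (t : ℚ) = y * n ^ 2 / d := by
    have h1 : (y * n ^ 2 / d) ^ 2 = ((d * n * G m n : ℤ) : ℚ) := by
      unfold G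
      push_cast
      rw [div_pow, mul_pow, heq, div_eq_iff (pow_ne_zero 2 hd0)]
      have h2 : (x * n) ^ 3 = (d * m) ^ 3 := by rw [hx]
      have h3 : (x * n) ^ 2 = (d * m) ^ 2 := by rw [hx]
      linear_combination (n : ℚ) * h2 + d * n ^ 2 * h3 - 2 * d ^ 2 * n ^ 3 * hx
    have h2 : IsIntegral ℤ ((y * n ^ 2 / d) ^ 2) := by
      rw [h1]
      exact isIntegral_algebraMap (x := (d * n * G m n : ℤ))
    obtain ⟨t, ht⟩ := IsIntegrallyClosed.exists_algebraMap_eq_of_isIntegral_pow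
      (R := ℤ) (K := ℚ) (by norm_num) h2
    exact ⟨t, ht⟩
  have hsq : d * n * G m n = t ^ 2 := by
    have h1 : ((d * n * G m n : ℤ) : ℚ) = ((t ^ 2 : ℤ) : ℚ) := by
      unfold G
      push_cast
      rw [ht, div_pow, mul_pow, heq, eq_div_iff (pow_ne_zero 2 hd0)]
      have h2 : (x * n) ^ 3 = (d * m) ^ 3 := by rw [hx]
      have h3 : (x * n) ^ 2 = (d * m) ^ 2 := by rw [hx]
      linear_combination -((n : ℚ) * h2 + d * n ^ 2 * h3 - 2 * d ^ 2 * n ^ 3 * hx)
    exact_mod_cast h1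
  obtain ⟨⟨a, ha⟩, g, hg⟩ := squares hd hmn hsq
  have h7 := not_seven_dvd hmn hg
  -- in the ring of integers
  have hpid := pid7
  set X1 : 𝓞 K7 := (m : 𝓞 K7) - n * T7 with hX1
  set X2 : 𝓞 K7 := (m : 𝓞 K7) - n * (T7 ^ 2 - 2) with hX2
  set X3 : 𝓞 K7 := (m : 𝓞 K7) - n * (1 - T7 - T7 ^ 2) with hX3
  have hprod : X1 * (X2 * X3) = (G m n : ℤ) := by
    rw [hX1, hX2, hX3]
    unfold G
    push_cast
    linear_combination ((n : 𝓞 K7) ^ 3 * (T7 ^ 2 - 1) - m * n ^ 2 * T7) * T7_eq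
  obtain ⟨r, s, hrs⟩ := hmn
  have hrs' : (r : 𝓞 K7) * m + s * n = 1 := by exact_mod_cast congrArg (Int.cast : ℤ → 𝓞 K7) hrs
  have hcop7 : IsCoprime (G m n) 7 :=
    ((Int.prime_iff_natAbs_prime.2 (by norm_num : Nat.Prime (7 : ℤ).natAbs)).coprime_iff_not_dvd.2
      h7).symm
  obtain ⟨u, v, huv⟩ := hcop7
  have huv' : (u : 𝓞 K7) * (G m n : ℤ) + v * 7 = 1 := by
    exact_mod_cast congrArg (Int.cast : ℤ → 𝓞 K7) huv
  have h12 : IsCoprime X1 X2 := by
    refine cop_aux (w := 6 + T7 - 2 * T7 ^ 2) (y := X3) hprod hrs' huv' ?_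
    linear_combination (2 * T7 - 5) * T7_eq
  have h13 : IsCoprime X1 X3 := by
    refine cop_aux (w := -3 + 3 * T7 + T7 ^ 2) (y := X2) (by rw [← hprod]; ring) hrs' huv' ?_
    linear_combination (T7 + 4) * T7_eq
  have hcop : IsCoprime X1 (X2 * X3) := h12.mul_right h13
  -- a unit times a square
  obtain ⟨w, α, hw⟩ : ∃ (w : (𝓞 K7)ˣ) (α : 𝓞 K7), X1 = w * α ^ 2 := by
    rcases hg with hg | hg
    · obtain ⟨α, w, hw⟩ := exists_associated_pow_of_mul_eq_pow' hcop (c := (g : 𝓞 K7)) (k := 2)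
        (by rw [hprod, hg]; push_cast; ring)
      exact ⟨w, α, by rw [← hw, mul_comm]⟩
    · obtain ⟨α, w, hw⟩ := exists_associated_pow_of_mul_eq_pow' hcop.neg_left
        (c := (g : 𝓞 K7)) (k := 2) (by rw [neg_mul, hprod, hg]; push_cast; ring)
      refine ⟨-w, α, ?_⟩
      rw [Units.val_neg, neg_mul, mul_comm, hw, neg_neg]
  obtain ⟨e, he⟩ : ∃ e : (𝓞 K7)ˣ, ku e * algebraMap ℚ K7 a ^ 2 = algebraMap ℚ K7 (d * n) := by
    have h1 : algebraMap ℚ K7 ((d : ℚ) * n) = algebraMap ℚ K7 ((d * n : ℤ) : ℚ) := by push_cast; rfl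
    rcases ha with ha | ha
    · refine ⟨1, ?_⟩
      rw [map_one, one_mul, h1, ha, Int.cast_pow, map_pow]
    · refine ⟨-1, ?_⟩
      rw [ku_neg_one, h1, ha, Int.cast_neg, Int.cast_pow, map_neg, map_pow]
      ring
  have hnK : algebraMap ℚ K7 (n : ℚ) ≠ 0 := (_root_.map_ne_zero _).2 hnq
  have hkey : algebraMap ℚ K7 x - algebraMap ℚ K7 d * t7 = ku (e * w) *
      (algebraMap ℚ K7 a * algebraMap (𝓞 K7) K7 α / algebraMap ℚ K7 n) ^ 2 := by
    have h1 : algebraMap (𝓞 K7) K7 X1 = ku w * algebraMap (𝓞 K7) K7 α ^ 2 := by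
      rw [hw, map_mul, map_pow]
      rfl
    have h2 : algebraMap (𝓞 K7) K7 X1 = algebraMap ℚ K7 m - algebraMap ℚ K7 n * t7 := by
      rw [hX1, map_sub, map_mul, map_intCast, map_intCast]
      rw [map_intCast, map_intCast]
      rfl
    have h3 : algebraMap ℚ K7 x * algebraMap ℚ K7 n = algebraMap ℚ K7 d * algebraMap ℚ K7 m := by
      rw [← map_mul, ← map_mul, hx]
    rw [div_pow, mul_pow, map_mul, ← mul_div_assoc, eq_div_iff (pow_ne_zero 2 hnK)]
    have h4 : ku e * ku w * (algebraMap ℚ K7 a ^ 2 * algebraMap (𝓞 K7) K7 α ^ 2) =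
        (ku e * algebraMap ℚ K7 a ^ 2) * (ku w * algebraMap (𝓞 K7) K7 α ^ 2) := by ring
    rw [h4, he, ← h1, h2, map_mul]
    linear_combination (algebraMap ℚ K7 n) * h3
  refine ⟨ku (e * w), _, ⟨e * w, rfl⟩, ?_, hkey⟩
  intro h0
  have h1 : algebraMap ℚ K7 x - algebraMap ℚ K7 d * t7 = 0 := by
    rw [hkey, h0]
    ring
  exact cub7.ne_t hd0 x (sub_eq_zero.1 h1)

/-- The twists by silent numbers have rank at most one. -/
theorem sp_dep {d : ℤ} (hd : Silent d) (P Q : (tw d).toAffine.Point) :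
    ∃ a b : ℤ, (a ≠ 0 ∨ b ≠ 0) ∧ a • P + b • Q = 0 :=
  cub7.dep (by exact_mod_cast hd.1) (key7 hd) P Q

end Pool.Agent.ZCQS
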